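import Pool.Agent.Helper98.EQ.Goals

/-!
# Project EQ: the multiplicity of the block of `Hs T A ⋊ D`
-/

set_option autoImplicit false
set_option linter.unusedSectionVars false

namespace Pool.Agent.Helper47.EQ.BLOCKS

open MonoidAlgebra IsLocalRing Pool.Agent.Helper17.PF
open Pool.Agent.Helper98.EQ
open Pool.Agent.Helper47.EP (Dat Chr Hs Om ee ev kap dm pHB pSIM)

/-- the representation of `FG` through `θ` -/
noncomputable def rhoG {p : ℕ} [Fact p.Prime] {T : Dat p} {A : Type} [Fintype A] [DecidableEq A]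
    {F : Type} [Field F] {C : Chr T F} {D : Type} [Group D] [Finite D]
    (hth : S_TH) {M : SA T A D} (I : Imp M C) {n : ℕ}
    (ρ : MonoidAlgebra F (Hs T A) →ₐ[F] Module.End F (Fin n → F)) (h1 : ρ (ee C A) = 1) :
    MonoidAlgebra F (GG M) →ₐ[F] Module.End F (Fin n → F) :=
  AlgHom.ofLinearMap
    { toFun := fun x => ρ (th I x)
      map_add' := by
        intro x y
        rw [(hth p T A D M F C I).2.2.2.2.2.1, map_add]
      map_smul' := by
        intro c x
        rw [(hth p T A D M F C I).2.2.2.2.2.2.1, map_smul]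
        rfl }
    (by
      show ρ (th I 1) = 1
      rw [(hth p T A D M F C I).2.2.2.2.2.2.2, h1])
    (by
      intro x y
      show ρ (th I (x * y)) = ρ (th I x) * ρ (th I y)
      rw [(hth p T A D M F C I).1, map_mul])

theorem rhoG_apply {p : ℕ} [Fact p.Prime] {T : Dat p} {A : Type} [Fintype A] [DecidableEq A]
    {F : Type} [Field F] {C : Chr T F} {D : Type} [Group D] [Finite D]
    (hth : S_TH) {M : SA T A D} (I : Imp M C) {n : ℕ}
    (ρ : MonoidAlgebra F (Hs T A) →ₐ[F] Module.End F (Fin n → F)) (h1 : ρ (ee C A) = 1)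
    (x : MonoidAlgebra F (GG M)) : rhoG hth I ρ h1 x = ρ (th I x) := rfl

theorem red_inE {p : ℕ} {T : Dat p} {A : Type} [Fintype A] [DecidableEq A] {D : Type} [Group D]
    (M : SA T A D) {𝒪 : Type} [CommRing 𝒪] [IsLocalRing 𝒪] (y : MonoidAlgebra 𝒪 (Hs T A)) :
    red 𝒪 (GG M) (inE M 𝒪 y) = inE M (ResidueField 𝒪) (red 𝒪 (Hs T A) y) := by
  classical
  induction y using MonoidAlgebra.induction_linear with
  | zero => simp only [map_zero]
  | add f g hf hg => simp only [map_add, hf, hg]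
  | single a b =>
    unfold inE red
    rw [mapDomainRingHom_apply, mapDomain_single, mapRingHom_single, mapRingHom_single,
      mapDomainRingHom_apply, mapDomain_single]

theorem t (hth : S_TH) (hnil : S_NIL) (hblk : S_BLK) (hcen : S_CEN) (hexi : S_EXI)
    (hsrc : S_SRC) (hlft : S_LFT) : S_BLOCKS := by
  intro p _ T A _ _ D₀ _ _ hD₀ M hM 𝒪 _ _ _ _ _ _ C I
  have hp := (Fact.out : p.Prime)
  -- the character over the residue field
  set Cb := C.map (residue 𝒪) with hCb
  have hrep : Pool.Agent.Helper47.EP.S_REP := Pool.Agent.Helper30.EP.REP.t pHB pSIM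
  have hobj : Pool.Agent.Helper47.EP.S_OBJ :=
    Pool.Agent.Helper18.EP.OBJ.t Pool.Agent.Helper36.EP.BRM.t
  have hcnt : Pool.Agent.Helper47.EP.S_CNT := Pool.Agent.Helper63.EP.CNT.t
  -- the primitive idempotent
  obtain ⟨iF, hiF, hiF1⟩ := hexi p T A D₀ M (ResidueField 𝒪) Cb
  obtain ⟨i, hi1, hi2, hi3, hri⟩ := hlft p T A D₀ M 𝒪 C iF hiF.2.1 hiF.1.1 hiF.1.2
  set b := inE M 𝒪 (ee C A) with hb
  have hbl : IsBlock b := (hblk p T A D₀ hD₀ M).2 𝒪 C I
  have hcn := hcen p T A D₀ hD₀ M hM 𝒪 C I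
  obtain ⟨hdef, hso⟩ := hsrc p T A D₀ hD₀ M 𝒪 C I
  have hso' := hso i hi1 hi2 hi3 (by rw [hri]; exact hiF) (by rw [hri]; exact hiF1)
  obtain ⟨hb1, hb2, -, -, -, -, hb7⟩ := pHB p T A 𝒪 C
  obtain ⟨ρ, hρs, hρe, hρi, hρd⟩ := hrep p T A (ResidueField 𝒪) Cb
  let Ib : Imp M Cb := I.map (residue 𝒪)
  obtain ⟨t1, t2, -, t4, -, -, -, -⟩ := hth p T A D₀ M (ResidueField 𝒪) Cb Ib
  have hiF2 : iF * ee Cb A = iF := by
    obtain ⟨-, hb2F, -, -, -, -, -⟩ := pHB p T A (ResidueField 𝒪) Cb
    rw [← hb2F iF]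
    exact hiF.1.1
  have hredb : red 𝒪 (GG M) b = inE M (ResidueField 𝒪) (ee Cb A) := by
    rw [hb, red_inE]
    congr 1
    exact (hb7 _ (residue 𝒪)).1
  have hsurj : Function.Surjective (rhoG hth Ib ρ hρe) := by
    intro f
    obtain ⟨y, hy⟩ := hρs f
    refine ⟨inE M (ResidueField 𝒪) y, ?_⟩
    rw [rhoG_apply, t2, map_mul, hρe, mul_one, hy]
  have hfinG : Finite (GG M) := by
    have : Finite (Hs T A) := inferInstance
    exact Finite.of_equiv _ (SemidirectProduct.equivProd (φ := M.s)).symm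
  have hii : inE M 𝒪 i * inE M 𝒪 i = inE M 𝒪 i := by rw [← map_mul, hi1]
  have hib : inE M 𝒪 i * b = inE M 𝒪 i := by
    rw [hb, ← map_mul, ← hb2 i, hi2]
  obtain ⟨s, e₀, he₀, hs1, hs2, hs3, hs4, hs5⟩ := hcnt 𝒪 (GG M) b (inE M 𝒪 i) hbl hii
    hso'.1.2.2.1 hib _ (rhoG hth Ib ρ hρe) hsurj (by
      intro e he heb hρ
      have hx : red 𝒪 (GG M) e = 0 := by
        refine hnil p T A (ResidueField 𝒪) Cb D₀ hD₀ M Ib _ (by rw [← map_mul, he]) ?_ ?_
        · rw [← hredb, ← map_mul]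
          have h1 : b * e = e * b := by
            have := hbl.1
            rw [Set.mem_center_iff] at this
            exact (this.comm e)
          rw [h1, heb]
        · exact hρi _ (t4 _) hρ
      exact idem_zero he hx)
  have hrank : dm iF ≤ T.l ^ Fintype.card A * s.card := by
    rw [hρd iF hiF.1.1]
    rw [rhoG_apply, red_inE, hri, t2, hiF2] at hs5
    exact Nat.mul_le_mul_left _ hs5
  have hDp : IsPGroup p (DD M) := by
    unfold DD
    exact IsPGroup.of_surjective hD₀ _ (MonoidHom.rangeRestrict_surjective _)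
  have hOb := hobj p 𝒪 (GG M) b (inE M 𝒪 i) e₀ (DD M) hDp hbl hso' hcn.1 hcn.2
    (hs1 e₀ he₀)
  refine ⟨iF, s.card, hiF.2.1, hiF.1.1, hiF.1.2, hiF1, hrank,
    ⟨GG M, inferInstance, hfinG, b, inE M 𝒪 i, DD M, ⊥, DD M, _, _,
    hbl, hdef, ?_, hso', hOb.2, hOb.1, ?_, ?_⟩⟩
  · have hinj : Function.Injective (SemidirectProduct.inr : D₀ →* GG M) :=
      SemidirectProduct.inr_injective
    exact ⟨(MonoidHom.ofInjective hinj).symm⟩
  · refine ⟨bot_le, inE M 𝒪 i, ?_, s, hs1, hs2, hs3, ?_⟩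
    · have hbb : b ∈ fixedPoints b (DD M) := by
        refine ⟨hbl.2.1, ?_⟩
        intro u _
        have h1 := hbl.1
        rw [Set.mem_center_iff] at h1
        rw [← (h1.comm _), mul_assoc, single_mul_single, mul_inv_cancel, mul_one]
        exact mul_one b
      refine ⟨b, hbb, b, hbb, hbl.2.1, hbl.2.1, ?_⟩
      have h1 := hbl.1
      rw [Set.mem_center_iff] at h1
      rw [(h1.comm _), mul_assoc, hbl.2.1, hib]
    · have h1 : ((s : Set (MonoidAlgebra 𝒪 (GG M))) ∩
          {j | ∃ u ∈ fixedPoints b ⊥, ∃ v ∈ fixedPoints b ⊥, u * v = b ∧ v * u = b ∧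
            j = u * e₀ * v}) = s := by
        ext e
        constructor
        · exact fun h => h.1
        · exact fun h => ⟨h, hs4 e h⟩
      rw [h1, Set.ncard_coe_finset]
  · refine ⟨(SemidirectProduct.inl : Hs T A →* GG M).range, ?_, ?_, ?_⟩
    · have h1 : (SemidirectProduct.inl : Hs T A →* GG M).range =
          (SemidirectProduct.rightHom : GG M →* D₀).ker :=
        SemidirectProduct.range_inl_eq_ker_rightHom
      rw [h1]
      infer_instance
    · have h1 : Nat.card (SemidirectProduct.inl : Hs T A →* GG M).range =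
          Nat.card (Hs T A) :=
        Nat.card_congr (MonoidHom.ofInjective
          (SemidirectProduct.inl_injective (φ := M.s))).toEquiv.symm
      rw [h1, Pool.Agent.Helper47.EP.card_Hs, ← pow_succ]
      exact Nat.Coprime.pow_left _ ((Nat.coprime_primes T.prime hp).2 T.ne)
    · rw [eq_top_iff]
      intro g _
      rw [← SemidirectProduct.inl_left_mul_inr_right g]
      exact Subgroup.mul_mem_sup ⟨_, rfl⟩ ⟨_, rfl⟩

end Pool.Agent.Helper47.EQ.BLOCKS
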